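import Pool.Agent.X139.MMNu

set_option autoImplicit false

open MeasureTheory ProbabilityTheory Pool.Agent.X139.MM

namespace Pool.Agent.Results.MP_bae357_pr.HeavyTailPercolates

/-- In every dimension `d ≥ 1` there is a probability distribution `ν` on `{2,3,...}` such that for
every `p < 1` the stable multi-matching of the unit intensity Poisson process with degree law
`p δ_1 + (1-p) ν` exists and has an infinite component almost surely. -/
theorem result (d : ℕ) (hd : 1 ≤ d) :
    ∃ ν : Measure ℕ, IsProbabilityMeasure ν ∧ ν {k | k < 2} = 0 ∧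
      ∀ p : ℝ, 0 ≤ p → p < 1 →
        ∀ (Ω : Type) (_ : MeasurableSpace Ω) (P : Measure Ω), IsProbabilityMeasure P →
        ∀ (S : Ω → Set (EuclideanSpace ℝ (Fin d))) (D : Ω → EuclideanSpace ℝ (Fin d) → ℕ),
        IsMarkedPoisson P volume (ENNReal.ofReal p • Measure.dirac 1 + ENNReal.ofReal (1 - p) • ν) S D →
        ∀ᵐ ω ∂P,
          (∃ G : SimpleGraph (S ω), IsMultiMatching (D ω) G ∧ IsStable (D ω) G) ∧
          ∀ G : SimpleGraph (S ω), IsMultiMatching (D ω) G → IsStable (D ω) G →
            HasInfiniteComponent G := by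
  refine ⟨nu, inferInstance, nu_lt_two, ?_⟩
  intro p h0 h1 Ω mΩ P hP S D h
  have hdim : 1 ≤ Module.finrank ℝ (EuclideanSpace ℝ (Fin d)) := by simpa using hd
  filter_upwards [percolation volume hdim p h0 h1 h] with ω hω
  exact ⟨hω.1, fun G hG1 hG2 => (hω.2 G hG1 hG2).2⟩

end Pool.Agent.Results.MP_bae357_pr.HeavyTailPercolates
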